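import Pool.Agent.Helper64.FL.StE

/-! Full list for MP_866009_co: attaching a vertex to the first segment. -/

set_option autoImplicit false

namespace Pool.Agent.Helper64.FL

open Pool.Agent.Helper64.CT Pool.Agent.Helper64.DT
open Pool.Agent.Helper64.HG (Ovl Model Circ IC HellyCircle ChordModel)

/-- the new list of segments with the bit `z` added -/
def ath_up {V : Type} (z : ℕ) (L : List (Seg × List V)) : List (Seg × List V) :=
  L.map (fun p => (⟨p.1.u, p.1.w, sb p.1.cl z⟩, p.2))

theorem ath_addz {V : Type} (z : ℕ) (L : List (Seg × List V)) :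
    (ath_up z L).map Prod.fst = addz z (L.map Prod.fst) := by
  induction L with
  | nil => rfl
  | cons p L ih =>
    simp only [ath_up, List.map_cons, addz] at ih ⊢
    rw [ih]

theorem ath_mem {V : Type} (z : ℕ) (L : List (Seg × List V)) (q : Seg × List V)
    (hq : q ∈ ath_up z L) : ∃ p ∈ L, q = (⟨p.1.u, p.1.w, sb p.1.cl z⟩, p.2) := by
  unfold ath_up at hq
  rw [List.mem_map] at hq
  obtain ⟨p, hp, h⟩ := hq
  exact ⟨p, hp, h.symm⟩

/-- splitting at the first element with a property -/
theorem ath_split {V : Type} (p : V → Prop) (P : List V) (h : ∃ x ∈ P, p x) :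
    ∃ P1 z P2, P = P1 ++ z :: P2 ∧ p z ∧ ∀ x ∈ P1, ¬ p x := by
  classical
  induction P with
  | nil => simp at h
  | cons a P ih =>
    by_cases ha : p a
    · exact ⟨[], a, P, rfl, ha, by simp⟩
    · have h' : ∃ x ∈ P, p x := by
        obtain ⟨x, hx, hpx⟩ := h
        rw [List.mem_cons] at hx
        rcases hx with rfl | hx
        · exact absurd hpx ha
        · exact ⟨x, hx, hpx⟩
      obtain ⟨P1, z, P2, h1, h2, h3⟩ := ih h'
      refine ⟨a :: P1, z, P2, by rw [h1]; rfl, h2, ?_⟩
      intro x hx
      rw [List.mem_cons] at hx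
      rcases hx with rfl | hx
      · exact ha
      · exact h3 x hx

theorem ath_okp (s : Sk) (i j : ℕ) (h : okp s i j = true) : i < s.n ∧ j < s.n ∧ i ≠ j := by
  unfold okp at h
  rw [Bool.and_eq_true, Bool.and_eq_true] at h
  obtain ⟨⟨h1, h2⟩, h3⟩ := h
  refine ⟨?_, ?_, ?_⟩
  · have := Nat.le_of_ble_eq_true h1
    omega
  · have := Nat.le_of_ble_eq_true h2
    omega
  · intro he
    subst he
    simp at h3

/-- the first alternative -/
theorem ath_clean {V : Type} (h1 : ST_TBS) (G : SimpleGraph V) (s : Sk) (f : ℕ → V)
    (g : Seg) (P : List V) (L0 : List (Seg × List V)) (x : ℕ)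
    (hM : Mod G s f ((g, P) :: L0)) (hsg : s.sg = g :: L0.map Prod.fst)
    (hxn : x < s.n) (hxu : x ≠ g.u) (hxw : x ≠ g.w) (hP : ∀ y ∈ P, ¬ G.Adj (f x) y) :
    Mod G (clean s x) f ((⟨g.u, g.w, sb g.cl x⟩, P) :: L0) := by
  obtain ⟨hsb, -⟩ := h1
  have hcl : clean s x = ⟨s.n, s.e, s.d, ⟨g.u, g.w, sb g.cl x⟩ :: L0.map Prod.fst⟩ := by
    unfold clean
    rw [hsg]
  rw [hcl]
  constructor
  · exact hM.n32
  · exact hM.alive
  · exact hM.inj
  · exact hM.adj
  · exact hM.nad
  · rw [List.map_cons]
  · intro q hq
    rw [List.mem_cons] at hq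
    rcases hq with rfl | hq
    · exact hM.bnd (g, P) (by simp)
    · exact hM.bnd q (List.mem_cons_of_mem _ hq)
  · intro q hq
    rw [List.mem_cons] at hq
    rcases hq with rfl | hq
    · exact hM.pth (g, P) (by simp)
    · exact hM.pth q (List.mem_cons_of_mem _ hq)
  · intro q hq
    rw [List.mem_cons] at hq
    rcases hq with rfl | hq
    · exact hM.dis (g, P) (by simp)
    · exact hM.dis q (List.mem_cons_of_mem _ hq)
  · intro q hq i hi
    rw [List.mem_cons] at hq
    rcases hq with rfl | hq
    · simp only at hi ⊢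
      rw [hsb, Bool.or_eq_true] at hi
      rcases hi with hi | hi
      · exact hM.cln (g, P) (by simp) i hi
      · have hi' := of_decide_eq_true hi
        subst hi'
        exact ⟨hxn, hxu, hxw, hP⟩
    · exact hM.cln q (List.mem_cons_of_mem _ hq) i hi
  · have hsep := hM.sep
    rw [List.pairwise_cons] at hsep ⊢
    exact hsep

theorem st_ATH (h1 : ST_TBS) (h2 : ST_PXI) (h3 : ST_IPL) : ST_ATH := by
  classical
  intro V G s f L g l x hM hsg hxu hxw hn
  obtain ⟨hxn, hun, hxu'⟩ := ath_okp s x g.u hxu
  obtain ⟨-, hwn, hxw'⟩ := ath_okp s x g.w hxw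
  have hmap := hM.map
  rw [hsg] at hmap
  obtain ⟨⟨g', P⟩, L0, hL⟩ : ∃ q L0, L = q :: L0 := by
    cases L with
    | nil => simp at hmap
    | cons q L0 => exact ⟨q, L0, rfl⟩
  subst hL
  simp only [List.map_cons, List.cons.injEq] at hmap
  obtain ⟨hg', hl⟩ := hmap
  subst hg'
  by_cases hex : ∃ y ∈ P, G.Adj (f x) y
  swap
  · -- clean
    left
    push Not at hex
    have hsg' : s.sg = g' :: L0.map Prod.fst := by rw [hsg, hl]
    refine ⟨(⟨g'.u, g'.w, sb g'.cl x⟩, P) :: L0,
      ath_clean h1 G s f g' P L0 x hM hsg' hxn hxu' hxw' hex, ?_⟩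
    intro hC
    have hcl : clean s x = ⟨s.n, s.e, s.d, ⟨g'.u, g'.w, sb g'.cl x⟩ :: L0.map Prod.fst⟩ := by
      unfold clean
      rw [hsg']
    rw [hcl]
    intro y
    rcases hC y with hy | ⟨p, hp, hy⟩
    · exact Or.inl hy
    · right
      rw [List.mem_cons] at hp
      rcases hp with rfl | hp
      · exact ⟨_, List.mem_cons_self, hy⟩
      · exact ⟨p, List.mem_cons_of_mem _ hp, hy⟩
  right
  obtain ⟨hsb, hsl, hlor, -⟩ := h1
  obtain ⟨hpc, hpi, -, -, hpm⟩ := h2
  obtain ⟨P1, z, P2, hPeq, hxz, hP1⟩ := ath_split (fun y => G.Adj (f x) y) P hex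
  subst hPeq
  obtain ⟨-, hspl, hnd, -⟩ := h3 V G
  have hb := hM.bnd (g', P1 ++ z :: P2) (by simp)
  simp only at hb
  obtain ⟨-, -, hbn⟩ := hb
  have hpth := hM.pth (g', P1 ++ z :: P2) (by simp)
  simp only at hpth
  have hrw : f g'.u :: (P1 ++ z :: P2 ++ [f g'.w]) = (f g'.u :: P1) ++ z :: (P2 ++ [f g'.w]) := by
    simp
  rw [hrw] at hpth
  have hnodup := hnd _ hpth
  rw [hspl] at hpth
  obtain ⟨hpa, hpb, hpc3⟩ := hpth
  have hz1 : ∀ y ∈ P1, y ≠ z := by
    intro y hy hyz
    subst hyz
    rw [List.nodup_append] at hnodup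
    exact hnodup.2.2 y (List.mem_cons_of_mem _ hy) y (by simp) rfl
  have hz2 : ∀ y ∈ P2, y ≠ z := by
    intro y hy hyz
    exact hpb.1 y (List.mem_append_left _ hy) hyz.symm
  have huw : ¬ G.Adj (f g'.u) (f g'.w) := (hpc3 (f g'.u) (by simp) (f g'.w) (by simp)).2
  have hu2 : ∀ y ∈ P2, ¬ G.Adj (f g'.u) y := fun y hy =>
    (hpc3 (f g'.u) (by simp) y (List.mem_append_left _ hy)).2
  have hw1 : ∀ y ∈ P1, ¬ G.Adj (f g'.w) y := fun y hy h =>
    (hpc3 y (List.mem_cons_of_mem _ hy) (f g'.w) (by simp)).2 h.symm
  have h12 : ∀ y ∈ P1, ∀ y' ∈ P2, y ≠ y' ∧ ¬ G.Adj y y' := fun y hy y' hy' =>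
    hpc3 y (List.mem_cons_of_mem _ hy) y' (List.mem_append_left _ hy')
  have hfz : ∀ i, i < s.n → z ≠ f i := fun i hi =>
    hM.dis (g', P1 ++ z :: P2) (by simp) z (by simp) i hi
  have hold : ∀ i, i < s.n → Function.update f s.n z i = f i := fun i hi =>
    Function.update_of_ne (by omega) _ _
  have hnew : Function.update f s.n z s.n = z := Function.update_self _ _ _
  have hsep := hM.sep
  rw [List.pairwise_cons] at hsep
  obtain ⟨hsep1, hsep2⟩ := hsep
  have hatt : attach s x = ⟨Nat.succ s.n, sb s.e (px x s.n),
      sb (Nat.lor s.d (Nat.shiftLeft g'.cl (Nat.mul 32 s.n))) (px g'.u g'.w),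
      ⟨g'.u, s.n, sb (sb g'.cl x) g'.w⟩ :: ⟨s.n, g'.w, sb g'.cl g'.u⟩ :: addz s.n l⟩ := by
    unfold attach
    rw [hsg]
  refine ⟨Function.update f s.n z, (⟨g'.u, s.n, sb (sb g'.cl x) g'.w⟩, P1) ::
    (⟨s.n, g'.w, sb g'.cl g'.u⟩, P2) :: ath_up s.n L0, ?_, ?_⟩
  · rw [hatt]
    constructor
    · show Nat.succ s.n ≤ 32
      omega
    · intro i hi
      exact hi
    · intro i j hi hj hij
      simp only [Nat.succ_eq_add_one] at hi hj
      by_cases hi' : i < s.n
      · by_cases hj' : j < s.n
        · rw [hold i hi', hold j hj'] at hij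
          exact hM.inj i j hi' hj' hij
        · have hj2 : j = s.n := by omega
          rw [hold i hi', hj2, hnew] at hij
          exact absurd hij.symm (hfz i hi')
      · have hi2 : i = s.n := by omega
        by_cases hj' : j < s.n
        · rw [hold j hj', hi2, hnew] at hij
          exact absurd hij (hfz j hj')
        · omega
    · intro i j hi hj hij
      simp only [eb] at hij
      rw [hsb, Bool.or_eq_true] at hij
      simp only [Nat.succ_eq_add_one]
      rcases hij with hij | hij
      · obtain ⟨a1, a2, a3⟩ := hM.adj i j hi hj hij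
        refine ⟨by omega, by omega, fun hne => ?_⟩
        rw [hold i a1, hold j a2]
        exact a3 hne
      · have hij' := of_decide_eq_true hij
        rcases hpi x s.n i j (by omega) hn hi hj hij' with ⟨b1, b2⟩ | ⟨b1, b2⟩
        · subst b1
          subst b2
          refine ⟨by omega, by omega, fun _ => ?_⟩
          rw [hold _ hxn, hnew]
          exact hxz
        · subst b1
          subst b2
          refine ⟨by omega, by omega, fun _ => ?_⟩
          rw [hold _ hxn, hnew]
          exact hxz.symm
    · intro i j hi hj hij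
      simp only [db] at hij
      rw [hsb, Bool.or_eq_true] at hij
      simp only [Nat.succ_eq_add_one]
      rcases hij with hij | hij
      · rw [hlor, Bool.or_eq_true] at hij
        rcases hij with hij | hij
        · obtain ⟨a1, a2, a3⟩ := hM.nad i j hi hj hij
          refine ⟨by omega, by omega, fun hne => ?_⟩
          rw [hold i a1, hold j a2]
          exact a3 hne
        · rw [hsl, Bool.and_eq_true] at hij
          obtain ⟨c1, c2⟩ := hij
          have c1' := of_decide_eq_true c1
          have hmul : Nat.mul 32 s.n = 32 * s.n := rfl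
          rw [hmul] at c1' c2
          rw [hpm] at c1' c2
          obtain ⟨d1, d2, d3, d4⟩ := hM.cln (g', P1 ++ z :: P2) (by simp) _ c2
          simp only at d1 d2 d3 d4
          have hmin : min i j < 32 := lt_of_le_of_lt (min_le_left _ _) hi
          have hmax : max i j = s.n := by omega
          have hk : 32 * max i j + min i j - 32 * s.n = min i j := by omega
          rw [hk] at d1 d2 d3 d4
          have hzz : ¬ G.Adj (f (min i j)) z := d4 z (by simp)
          rcases le_total i j with hle | hle
          · rw [max_eq_right hle] at hmax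
            rw [min_eq_left hle] at d1 hzz
            subst hmax
            refine ⟨by omega, by omega, fun _ => ?_⟩
            rw [hold i d1, hnew]
            exact hzz
          · rw [max_eq_left hle] at hmax
            rw [min_eq_right hle] at d1 hzz
            subst hmax
            refine ⟨by omega, by omega, fun _ => ?_⟩
            rw [hold j d1, hnew]
            exact fun h => hzz h.symm
      · have hij' := of_decide_eq_true hij
        rcases hpi g'.u g'.w i j (by omega) (by omega) hi hj hij' with ⟨b1, b2⟩ | ⟨b1, b2⟩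
        · subst b1
          subst b2
          refine ⟨by omega, by omega, fun _ => ?_⟩
          rw [hold _ hun, hold _ hwn]
          exact huw
        · subst b1
          subst b2
          refine ⟨by omega, by omega, fun _ => ?_⟩
          rw [hold _ hun, hold _ hwn]
          exact fun h => huw h.symm
    · rw [List.map_cons, List.map_cons, ath_addz, hl]
    · intro q hq
      rw [List.mem_cons, List.mem_cons] at hq
      simp only [Nat.succ_eq_add_one]
      rcases hq with rfl | rfl | hq
      · exact ⟨by simp only; omega, by simp, by simp only; omega⟩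
      · exact ⟨by simp, by simp only; omega, by simp only; omega⟩
      · obtain ⟨p, hp, rfl⟩ := ath_mem _ _ _ hq
        obtain ⟨e1, e2, e3⟩ := hM.bnd p (List.mem_cons_of_mem _ hp)
        exact ⟨by simp only; omega, by simp only; omega, e3⟩
    · intro q hq
      rw [List.mem_cons, List.mem_cons] at hq
      rcases hq with rfl | rfl | hq
      · simp only
        rw [hnew, hold _ hun]
        exact hpa
      · simp only
        rw [hnew, hold _ hwn]
        exact hpb
      · obtain ⟨p, hp, rfl⟩ := ath_mem _ _ _ hq
        obtain ⟨e1, e2, e3⟩ := hM.bnd p (List.mem_cons_of_mem _ hp)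
        simp only
        rw [hold _ e1, hold _ e2]
        exact hM.pth p (List.mem_cons_of_mem _ hp)
    · intro q hq y hy i hi
      simp only [Nat.succ_eq_add_one] at hi
      rw [List.mem_cons, List.mem_cons] at hq
      rcases hq with rfl | rfl | hq
      · simp only at hy
        by_cases hi' : i < s.n
        · rw [hold i hi']
          exact hM.dis (g', P1 ++ z :: P2) (by simp) y (List.mem_append_left _ hy) i hi'
        · have hi2 : i = s.n := by omega
          rw [hi2, hnew]
          exact hz1 y hy
      · simp only at hy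
        by_cases hi' : i < s.n
        · rw [hold i hi']
          exact hM.dis (g', P1 ++ z :: P2) (by simp) y
            (List.mem_append_right _ (List.mem_cons_of_mem _ hy)) i hi'
        · have hi2 : i = s.n := by omega
          rw [hi2, hnew]
          exact hz2 y hy
      · obtain ⟨p, hp, rfl⟩ := ath_mem _ _ _ hq
        simp only at hy
        by_cases hi' : i < s.n
        · rw [hold i hi']
          exact hM.dis p (List.mem_cons_of_mem _ hp) y hy i hi'
        · have hi2 : i = s.n := by omega
          rw [hi2, hnew]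
          exact ((hsep1 p hp z (by simp) y hy).1).symm
    · intro q hq i hi
      simp only [Nat.succ_eq_add_one]
      rw [List.mem_cons, List.mem_cons] at hq
      rcases hq with rfl | rfl | hq
      · simp only at hi ⊢
        rw [hsb, Bool.or_eq_true, hsb, Bool.or_eq_true] at hi
        rcases hi with (hi | hi) | hi
        · obtain ⟨d1, d2, d3, d4⟩ := hM.cln (g', P1 ++ z :: P2) (by simp) _ hi
          simp only at d1 d2 d3 d4
          refine ⟨by omega, d2, by omega, fun y hy => ?_⟩
          rw [hold i d1]
          exact d4 y (List.mem_append_left _ hy)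
        · have hi' := of_decide_eq_true hi
          subst hi'
          refine ⟨by omega, hxu', by omega, fun y hy => ?_⟩
          rw [hold _ hxn]
          exact hP1 y hy
        · have hi' := of_decide_eq_true hi
          subst hi'
          refine ⟨by omega, fun h => hbn h.symm, by omega, fun y hy => ?_⟩
          rw [hold _ hwn]
          exact hw1 y hy
      · simp only at hi ⊢
        rw [hsb, Bool.or_eq_true] at hi
        rcases hi with hi | hi
        · obtain ⟨d1, d2, d3, d4⟩ := hM.cln (g', P1 ++ z :: P2) (by simp) _ hi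
          simp only at d1 d2 d3 d4
          refine ⟨by omega, by omega, d3, fun y hy => ?_⟩
          rw [hold i d1]
          exact d4 y (List.mem_append_right _ (List.mem_cons_of_mem _ hy))
        · have hi' := of_decide_eq_true hi
          subst hi'
          refine ⟨by omega, by omega, hbn, fun y hy => ?_⟩
          rw [hold _ hun]
          exact hu2 y hy
      · obtain ⟨p, hp, rfl⟩ := ath_mem _ _ _ hq
        simp only at hi ⊢
        obtain ⟨e1, e2, e3⟩ := hM.bnd p (List.mem_cons_of_mem _ hp)
        rw [hsb, Bool.or_eq_true] at hi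
        rcases hi with hi | hi
        · obtain ⟨d1, d2, d3, d4⟩ := hM.cln p (List.mem_cons_of_mem _ hp) _ hi
          refine ⟨by omega, d2, d3, fun y hy => ?_⟩
          rw [hold i d1]
          exact d4 y hy
        · have hi' := of_decide_eq_true hi
          subst hi'
          refine ⟨by omega, by omega, by omega, fun y hy => ?_⟩
          rw [hnew]
          exact (hsep1 p hp z (by simp) y hy).2
    · rw [List.pairwise_cons, List.pairwise_cons]
      refine ⟨?_, ?_, ?_⟩
      · intro q hq y hy y' hy'
        rw [List.mem_cons] at hq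
        rcases hq with rfl | hq
        · exact h12 y hy y' hy'
        · obtain ⟨p, hp, rfl⟩ := ath_mem _ _ _ hq
          exact hsep1 p hp y (List.mem_append_left _ hy) y' hy'
      · intro q hq y hy y' hy'
        obtain ⟨p, hp, rfl⟩ := ath_mem _ _ _ hq
        exact hsep1 p hp y (List.mem_append_right _ (List.mem_cons_of_mem _ hy)) y' hy'
      · unfold ath_up
        rw [List.pairwise_map]
        exact hsep2
  · intro hC
    rw [hatt]
    intro y
    simp only [Nat.succ_eq_add_one]
    rcases hC y with ⟨i, hi, rfl⟩ | ⟨p, hp, hy⟩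
    · exact Or.inl ⟨i, by omega, (hold i hi).symm⟩
    · rw [List.mem_cons] at hp
      rcases hp with rfl | hp
      · simp only at hy
        rw [List.mem_append, List.mem_cons] at hy
        rcases hy with hy | rfl | hy
        · exact Or.inr ⟨_, List.mem_cons_self, hy⟩
        · exact Or.inl ⟨s.n, by omega, hnew.symm⟩
        · exact Or.inr ⟨_, List.mem_cons_of_mem _ List.mem_cons_self, hy⟩
      · refine Or.inr ⟨(⟨p.1.u, p.1.w, sb p.1.cl s.n⟩, p.2), List.mem_cons_of_mem _
          (List.mem_cons_of_mem _ ?_), hy⟩
        unfold ath_up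
        exact List.mem_map_of_mem hp

end Pool.Agent.Helper64.FL
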