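import Pool.Agent.Helper64.FL.StH

/-! Full list for MP_866009_co: statement F2X (an arc between adjacent vertices). -/

set_option autoImplicit false

namespace Pool.Agent.Helper64.FL

open Pool.Agent.Helper64.CT Pool.Agent.Helper64.DT
open Pool.Agent.Helper64.HG (Ovl Model Circ IC HellyCircle ChordModel)

theorem f2x_const {V : Type} {G : SimpleGraph V} {S : Set V} {b : V → V → Bool} (hb : NJ G S b)
    {c : V} (hc : c ∈ S) : ∀ M : List V, IPt G M → (∀ u ∈ M, u ∈ S ∧ u ∈ Far G c) →
      ∀ u ∈ M, ∀ w ∈ M, b c u = b c w := by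
  have key : ∀ (v : V) (M : List V), IPt G (v :: M) → (∀ u ∈ v :: M, u ∈ S ∧ u ∈ Far G c) →
      ∀ u ∈ v :: M, b c u = b c v := by
    intro v M
    induction M generalizing v with
    | nil =>
      intro _ _ u hu
      rw [List.mem_singleton.1 hu]
    | cons v' l ih =>
      intro hI hS u hu
      rcases List.mem_cons.1 hu with rfl | hu
      · rfl
      · have h1 := ih v' hI.2.2.2 (fun u hu => hS u (List.mem_cons_of_mem _ hu)) u hu
        have h2 : G.Adj v v' := hI.2.1 v' (by rfl)
        have h3 := hS v' (by simp)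
        have h4 := hS v (by simp)
        rw [h1]
        exact hb.2.1 c hc v' h3.1 v h4.1 h3.2 h4.2 h2.symm
  intro M hI hS u hu w hw
  cases M with
  | nil => exact absurd hu (List.not_mem_nil)
  | cons v l => exact (key v l hI hS u hu).trans (key v l hI hS w hw).symm

theorem f2x_bool (p q r s : Bool) (e1 e2 e3 f1 f2 f3 : Bool)
    (h1 : xor p q = xor e1 e2) (h2 : xor r q = xor f1 e3) (h3 : xor s p = xor f2 f3)
    (k1 : e1 ≠ f1) (k2 : e2 ≠ f2) (k3 : e3 ≠ f3) (h : r = s) : False := by
  revert h1 h2 h3 k1 k2 k3 h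
  cases p <;> cases q <;> cases r <;> cases s <;> cases e1 <;> cases e2 <;> cases e3 <;>
    cases f1 <;> cases f2 <;> cases f3 <;> simp

theorem st_F2X (_h1 : ST_NJC) (h2 : ST_TRN) (h3 : ST_ALT) : ST_F2X := by
  intro V G S x n P a m hA hS hyz hin ham hodd hN
  obtain ⟨b, hb'⟩ := hN
  have hb : NJ G S b := hb'
  have hxS : x ∈ S := hS (Or.inl rfl)
  have hnS : ∀ i, a ≤ i → i ≤ m → n i ∈ S := fun i h1 h2 => hS (Or.inr (Or.inl ⟨i, h1, h2, rfl⟩))
  have hPS : ∀ i, a ≤ i → i < m → ∀ u ∈ P i, u ∈ S :=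
    fun i h1 h2 u hu => hS (Or.inr (Or.inr ⟨i, h1, h2, hu⟩))
  -- vertices of the links are different from the `n j`
  have hPn : ∀ i j, a ≤ i → i < m → a ≤ j → j ≤ m → ∀ u ∈ P i, u ≠ n j := by
    intro i j h1 h2 h3 h4 u hu e
    exact (hA.far i h1 h2 u hu).2 (e ▸ hA.xn j h3 h4)
  have hPF : ∀ i j, a ≤ i → i < m → a ≤ j → j ≤ m → j ≠ i → j ≠ i + 1 → ∀ u ∈ P i,
      u ∈ Far G (n j) := fun i j h1 h2 h3 h4 h5 h6 u hu =>
    ⟨hPn i j h1 h2 h3 h4 u hu, hA.cln i j h1 h2 h3 h4 h5 h6 u hu⟩
  -- first and last vertices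
  have hfst : ∀ i, a ≤ i → i < m → ∃ u ∈ P i, G.Adj (n i) u := by
    intro i h1 h2
    have hne := hA.ne i h1 h2
    cases hP : P i with
    | nil => exact absurd hP hne
    | cons u l =>
      have hu : u ∈ P i := by rw [hP]; exact List.mem_cons_self
      exact ⟨u, by simp, (hA.fst i h1 h2 u hu).2 (by rw [hP]; rfl)⟩
  have hlst : ∀ i, a ≤ i → i < m → ∃ u ∈ P i, G.Adj (n (i + 1)) u := by
    intro i h1 h2
    have hne := hA.ne i h1 h2
    have hu : (P i).getLast hne ∈ P i := List.getLast_mem hne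
    exact ⟨_, hu, (hA.lst i h1 h2 _ hu).2 (List.getLast?_eq_some_getLast hne)⟩
  obtain ⟨l, hl, hyl⟩ := hfst a (le_refl _) (by omega)
  obtain ⟨l', hl', hml'⟩ := hlst a (le_refl _) (by omega)
  obtain ⟨l2, hl2, hzl2⟩ := hlst (m - 1) (by omega) (by omega)
  obtain ⟨l2', hl2', hnl2'⟩ := hfst (m - 1) (by omega) (by omega)
  rw [show m - 1 + 1 = m by omega] at hzl2
  have hyS := hnS a (le_refl _) (by omega)
  have hzS := hnS m (by omega) (le_refl _)
  have hmS := hnS (a + 1) (by omega) (by omega)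
  have hxy := hA.xn a (le_refl _) (by omega)
  have hxz := hA.xn m (by omega) (le_refl _)
  have hxm := hA.xn (a + 1) (by omega) (by omega)
  have hinF : ∀ i, a < i → i < m → n i ∈ Far G (n a) ∧ n i ∈ Far G (n m) := by
    intro i h1 h2
    refine ⟨⟨fun e => hA.inj a i (le_refl _) h1 (by omega) e.symm, (hin i h1 h2).1⟩,
      ⟨fun e => hA.inj i m (by omega) h2 (le_refl _) e, (hin i h1 h2).2⟩⟩
  have hmF := hinF (a + 1) (by omega) (by omega)
  have hlS := hPS a (le_refl _) (by omega) l hl
  have hl'S := hPS a (le_refl _) (by omega) l' hl'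
  have hl2S := hPS (m - 1) (by omega) (by omega) l2 hl2
  -- the three triangles
  have T1 := h2 V G S b hb x hxS (n a) hyS (n m) hzS (n (a + 1)) hmS hxy hxz hyz hxm hmF.1 hmF.2
  have hlFx := hA.far a (le_refl _) (by omega) l hl
  have hlFz := hPF a m (le_refl _) (by omega) (by omega) (le_refl _) (by omega) (by omega) l hl
  have T2 := h2 V G S b hb (n a) hyS x hxS (n m) hzS l hlS hxy.symm hyz hxz hyl hlFx hlFz
  have hl2Fx := hA.far (m - 1) (by omega) (by omega) l2 hl2
  have hl2Fy := hPF (m - 1) a (by omega) (by omega) (le_refl _) (by omega) (by omega) (by omega)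
    l2 hl2
  have T3 := h2 V G S b hb (n m) hzS x hxS (n a) hyS l2 hl2S hxz.symm hyz.symm hxy hzl2 hl2Fx hl2Fy
  -- `b z` along the first link
  have hl'Fz := hPF a m (le_refl _) (by omega) (by omega) (le_refl _) (by omega) (by omega) l' hl'
  have E1 : b (n m) l = b (n m) (n (a + 1)) := by
    have e1 : b (n m) l = b (n m) l' :=
      f2x_const hb hzS (P a) (hA.ip a (le_refl _) (by omega))
        (fun u hu => ⟨hPS a (le_refl _) (by omega) u hu,
          hPF a m (le_refl _) (by omega) (by omega) (le_refl _) (by omega) (by omega) u hu⟩)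
        l hl l' hl'
    rw [e1]
    exact hb.2.1 (n m) hzS l' hl'S (n (a + 1)) hmS hl'Fz hmF.2 hml'.symm
  -- `b y` along the other links
  have E2 : ∀ i, a + 1 ≤ i → i < m → b (n a) (n i) = b (n a) (n (a + 1)) := by
    intro i hi
    induction i, hi using Nat.le_induction with
    | base => intro _; rfl
    | succ i hi ih =>
      intro him
      rw [← ih (by omega)]
      obtain ⟨u, hu, hnu⟩ := hfst i (by omega) (by omega)
      obtain ⟨w, hw, hnw⟩ := hlst i (by omega) (by omega)
      have hF := fun v hv => hPF i a (by omega) (by omega) (le_refl _) (by omega) (by omega)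
        (by omega) v hv
      have e1 : b (n a) u = b (n a) w :=
        f2x_const hb hyS (P i) (hA.ip i (by omega) (by omega))
          (fun v hv => ⟨hPS i (by omega) (by omega) v hv, hF v hv⟩) u hu w hw
      have e2 : b (n a) (n i) = b (n a) u :=
        hb.2.1 (n a) hyS (n i) (hnS i (by omega) (by omega)) u (hPS i (by omega) (by omega) u hu)
          (hinF i (by omega) (by omega)).1 (hF u hu) hnu
      have e3 : b (n a) (n (i + 1)) = b (n a) w :=
        hb.2.1 (n a) hyS (n (i + 1)) (hnS (i + 1) (by omega) (by omega)) w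
          (hPS i (by omega) (by omega) w hw) (hinF (i + 1) (by omega) (by omega)).1 (hF w hw) hnw
      rw [e2, e3, e1]
  have E3 : b (n a) l2 = b (n a) (n (a + 1)) := by
    rw [← E2 (m - 1) (by omega) (by omega)]
    have hF := fun v hv => hPF (m - 1) a (by omega) (by omega) (le_refl _) (by omega) (by omega)
        (by omega) v hv
    have e1 : b (n a) l2 = b (n a) l2' :=
      f2x_const hb hyS (P (m - 1)) (hA.ip (m - 1) (by omega) (by omega))
        (fun v hv => ⟨hPS (m - 1) (by omega) (by omega) v hv, hF v hv⟩) l2 hl2 l2' hl2'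
    rw [e1]
    exact hb.2.1 (n a) hyS l2' (hPS (m - 1) (by omega) (by omega) l2' hl2') (n (m - 1))
      (hnS (m - 1) (by omega) (by omega)) (hF l2' hl2') (hinF (m - 1) (by omega) (by omega)).1
      hnl2'.symm
  -- alternation
  obtain ⟨A1, A2⟩ := h3 V G S b hb x n P a m hA hS
  have A3 : ∀ t, a + 2 * t < m → ∀ w ∈ P (a + 2 * t), b x l = b x w := by
    intro t
    induction t with
    | zero =>
      intro h w hw
      exact A1 a (le_refl _) (by omega) l hl w hw
    | succ t ih =>
      intro h w hw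
      obtain ⟨u, hu, -⟩ := hfst (a + 2 * t) (by omega) (by omega)
      obtain ⟨v, hv, -⟩ := hfst (a + 2 * t + 1) (by omega) (by omega)
      have i1 := ih (by omega) u hu
      have i2 := A2 (a + 2 * t) (by omega) (by omega) u hu v hv
      have i3 := A2 (a + 2 * t + 1) (by omega) (by omega) v hv w hw
      rw [i1]
      revert i2 i3
      cases b x u <;> cases b x v <;> cases b x w <;> simp
  have A4 : b x l = b x l2 := by
    obtain ⟨t, ht⟩ := hodd
    have hm : m - 1 = a + 2 * t := by omega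
    exact A3 t (by omega) l2 (hm ▸ hl2)
  have K1 := hb.1 x hxS (n a) hyS hxy
  have K2 := hb.1 x hxS (n m) hzS hxz
  have K3 := hb.1 (n a) hyS (n m) hzS hyz
  rw [E1] at T2
  rw [E3] at T3
  exact f2x_bool _ _ _ _ _ _ _ _ _ _ T1 T2 T3 K1 K2 K3 A4

end Pool.Agent.Helper64.FL
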