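import Pool.Agent.Helper64.FL.StC

/-! Full list for MP_866009_co: module HTD. -/

set_option autoImplicit false

namespace Pool.Agent.Helper35.FL

open Pool.Agent.Helper64.FL
open Pool.Agent.Helper64.CT Pool.Agent.Helper64.DT

variable {V : Type}

theorem htd_cn (G : SimpleGraph V) (S : Set V) (hCNB : ST_CNB) : ∀ (L : List V) (h : V),
    IPt G (h :: L) → (∀ u ∈ h :: L, u ∈ S) → ∀ v ∈ h :: L, Cn G S h v := by
  obtain ⟨cy, ct, cm, ca, cc, ck, cp⟩ := hCNB V G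
  intro L
  induction L with
  | nil =>
    intro h _ hS v hv
    rcases List.mem_singleton.1 hv with rfl
    exact ⟨hS _ hv, Relation.ReflTransGen.refl⟩
  | cons b L ih =>
    intro h hI hS v hv
    rcases List.mem_cons.1 hv with rfl | hv
    · exact ⟨hS _ (by simp), Relation.ReflTransGen.refl⟩
    · have hb : G.Adj h b := hI.2.1 b (by simp)
      have hI' : IPt G (b :: L) := hI.2.2.2
      have h1 := ih b hI' (fun u hu => hS u (List.mem_cons_of_mem _ hu)) v hv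
      exact ct _ _ _ _ (ca _ _ _ (hS _ (by simp)) (hS _ (by simp)) hb) h1

theorem htd_pv (G : SimpleGraph V) (S : Set V) (hCNB : ST_CNB) (a w : V) (l : List V)
    (hP : Pth G a l w) (hS : PV a l w ⊆ S) : ∀ v ∈ PV a l w, Cn G S a v := by
  intro v hv
  rcases hP with ⟨rfl, rfl⟩ | ⟨_, hI⟩
  · have : v = a := by
      rcases hv with h | h | h
      · exact h
      · simp at h
      · exact h
    subst this
    exact ⟨hS (Or.inl rfl), Relation.ReflTransGen.refl⟩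
  · refine htd_cn G S hCNB _ _ hI ?_ v ?_
    · intro u hu
      apply hS
      rcases List.mem_cons.1 hu with h | h
      · exact Or.inl h
      · rcases List.mem_append.1 h with h | h
        · exact Or.inr (Or.inl h)
        · exact Or.inr (Or.inr (List.mem_singleton.1 h))
    · rcases hv with h | h | h
      · simp [h]
      · simp [h]
      · simp [h]

theorem st_HTD (hCAB : ST_CAB) (hQKB : ST_QKB) (hSPN : ST_SPN) (hSGF : ST_SGF) (hRAY : ST_RAY)
    (hCNB : ST_CNB) : ST_HTD := by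
  intro V G Q σ E x y z a la a' b lb b' m m' x3 y3 hx hy hz hxy hxz hyz T hBE sa sb
  obtain ⟨cy, ct, cm, ca, cc, ck, cp⟩ := hCNB V G
  obtain ⟨r1, r2, r3, r4, r5, r6⟩ := hRAY V G Q E.red.df E.mx
  have csym : ∀ c u w, Comp G c u w → Comp G c w u := fun c u w h =>
    (cc _ _ _).2 (cy _ _ _ ((cc _ _ _).1 h)).2
  have ctr : ∀ c u v w, Comp G c u v → Comp G c v w → Comp G c u w := fun c u v w h h' =>
    (cc _ _ _).2 (ct _ _ _ _ ((cc _ _ _).1 h) ((cc _ _ _).1 h'))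
  have cadj : ∀ c u w, u ∈ Far G c → w ∈ Far G c → G.Adj u w → Comp G c u w := fun c u w h h' h'' =>
    (cc _ _ _).2 (ca _ _ _ h h' h'')
  have cR : ∀ c u w, Comp G c u w → w ∈ Far G c := fun c u w h => (cy _ _ _ ((cc _ _ _).1 h)).1
  have cL : ∀ c u w, Comp G c u w → u ∈ Far G c := fun c u w h => ((cc _ _ _).1 h).1
  have axy : G.Adj x y := E.mx.1 x hx y hy hxy
  have axz : G.Adj x z := E.mx.1 x hx z hz hxz
  have ayz : G.Adj y z := E.mx.1 y hy z hz hyz
  have pa0 : a ∈ PV a la a' := Or.inl rfl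
  have pa1 : a' ∈ PV a la a' := Or.inr (Or.inr rfl)
  have pb0 : b ∈ PV b lb b' := Or.inl rfl
  have pb1 : b' ∈ PV b lb b' := Or.inr (Or.inr rfl)
  have ra : RayQ G Q x a := ⟨hx, T.A.yb, fun h => (T.inS.1 pa0) h⟩
  have rb : RayQ G Q y b := ⟨hy, T.B.yb, fun h => (T.inS.2.1 pb0) h⟩
  have rx3 : RayQ G Q x x3 := hBE.2.1
  have ry3 : RayQ G Q y y3 := hBE.2.2.1
  have cfa : ∀ w ∈ Q, w ≠ x → Conf G w a x3 := (hSGF V G Q σ E x a x3 ra rx3).2 sa
  have cfb : ∀ w ∈ Q, w ≠ y → Conf G w b y3 := (hSGF V G Q σ E y b y3 rb ry3).2 sb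
  have cza : Conf G z a x3 := cfa z hz hxz.symm
  have czb : Conf G z b y3 := cfb z hz hyz.symm
  have cxy : Comp G z x3 y3 := (r4 x y x3 y3 hBE).2.2.2.2 z hz hxz.symm hyz.symm
  have nab : ¬ Comp G z a b := hCAB V G Qᶜ E.np x y z a la a' b lb b' m m' axy axz ayz T
  have caz : ∀ v ∈ PV a la a', Comp G z a v := fun v hv =>
    (cc _ _ _).2 (htd_pv G _ hCNB a a' la T.A.pth T.Az v hv)
  have cbz : ∀ v ∈ PV b lb b', Comp G z b v := fun v hv =>
    (cc _ _ _).2 (htd_pv G _ hCNB b b' lb T.B.pth T.Bz v hv)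
  have cay : ∀ v ∈ PV a la a', Comp G y a v := fun v hv =>
    (cc _ _ _).2 (htd_pv G _ hCNB a a' la T.A.pth T.Ay v hv)
  have cbx : ∀ v ∈ PV b lb b', Comp G x b v := fun v hv =>
    (cc _ _ _).2 (htd_pv G _ hCNB b b' lb T.B.pth T.Bx v hv)
  have hAttb : ∀ n, G.Adj z n → ∀ v ∈ PV b lb b', G.Adj n v → n ∈ Att G z b :=
    fun n hn v hv hnv => ⟨hn, v, cbz v hv, hnv⟩
  have hAtta : ∀ n, G.Adj z n → ∀ v ∈ PV a la a', G.Adj n v → n ∈ Att G z a :=
    fun n hn v hv hnv => ⟨hn, v, caz v hv, hnv⟩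
  rcases T.mm with hmm | ⟨hmm, hAm', hBm⟩
  · -- equal middle vertices: three pairwise conflicting components
    subst hmm
    have hcab : Conf G z a b := by
      refine ⟨nab, ⟨a', caz a' pa1, ⟨m, hAttb m T.zm b' pb1 T.B.mb, T.A.mb.symm⟩,
        ⟨y, hAttb y ayz.symm b pb0 T.B.yb, ?_⟩⟩, ⟨b', cbz b' pb1,
        ⟨m, hAtta m T.zm a' pa1 T.A.mb, T.B.mb.symm⟩, ⟨x, hAtta x axz.symm a pa0 T.A.yb, ?_⟩⟩⟩
      · intro h
        exact (T.Ay pa1).2 h.symm
      · intro h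
        exact (T.Bx pb1).2 h.symm
    obtain ⟨side, s1, s2⟩ := E.cii z
    have e1 := s2 _ _ cza
    have e2 := s2 _ _ czb
    have e3 := s1 _ _ cxy
    have e4 := s2 _ _ hcab
    revert e1 e2 e3 e4
    cases side a <;> cases side b <;> cases side x3 <;> cases side y3 <;> simp
  · -- adjacent middle vertices
    obtain ⟨s, M, t, hsA, hsD, htB, htD, hP, hM, _⟩ := hSPN V G (KC G z x3) {u | G.Adj x u}
      {u | G.Adj y u} ⟨x3, rx3.2.1, y3, ry3.2.1, ck _ _ _ cxy⟩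
    have sz : s ∈ Far G z := cR _ _ _ hsD
    have tz : t ∈ Far G z := cR _ _ _ htD
    have rs : RayQ G Q x s := ⟨hx, hsA, r3 z hz s sz⟩
    have rt : RayQ G Q y t := ⟨hy, htB, r3 z hz t tz⟩
    have sy : s ∈ Far G y := (r1 x s y rs hy hxy.symm).1
    have tx : t ∈ Far G x := (r1 y t x rt hx hxy).1
    have sσ : σ x3 = σ s := (E.sg x x3 s z rx3 rs hz hxz.symm).1 hsD
    have tσ : σ y3 = σ t := (E.sg y y3 t z ry3 rt hz hyz.symm).1 (ctr _ _ _ _ (csym _ _ _ cxy) htD)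
    have sm : s ∈ Far G m := by
      refine ⟨fun h => sz.2 (h ▸ T.zm), fun h => sa ?_⟩
      have h1 : Comp G y s m := cadj y s m sy T.mF.2 h.symm
      have h2 : Comp G y a m := ctr _ _ _ _ (cay a' pa1) (cadj y a' m (T.Ay pa1) T.mF.2 T.A.mb.symm)
      rw [sσ]
      exact (E.sg x a s y ra rs hy hxy.symm).1 (ctr _ _ _ _ h2 (csym _ _ _ h1))
    have tm' : t ∈ Far G m' := by
      refine ⟨fun h => tz.2 (h ▸ T.zm'), fun h => sb ?_⟩
      have h1 : Comp G x t m' := cadj x t m' tx T.mF'.1 h.symm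
      have h2 : Comp G x b m' :=
        ctr _ _ _ _ (cbx b' pb1) (cadj x b' m' (T.Bx pb1) T.mF'.1 T.B.mb.symm)
      rw [tσ]
      exact (E.sg y b t x rb rt hx hxy).1 (ctr _ _ _ _ h2 (csym _ _ _ h1))
    have hD : ∀ u ∈ PV s M t, Comp G z x3 u := by
      intro u hu
      rcases hu with rfl | h | rfl
      · exact hsD
      · exact (hM u h).1
      · exact htD
    refine hQKB V G Qᶜ E.np x y z a la a' b lb b' m m' axy axz ayz T ?_ s M t hP hsA htB sy sz tx tz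
      sm tm' ?_ ?_ ?_
    · exact hmm.ne
    · intro u hu
      obtain ⟨h1, h2, h3⟩ := hM u hu
      have uz : u ∈ Far G z := cR _ _ _ h1
      refine ⟨⟨fun h => uz.2 (h ▸ axz.symm), h2⟩, ⟨fun h => uz.2 (h ▸ ayz.symm), h3⟩, uz⟩
    · intro u hu v hv
      have h1 := hD u hu
      have h2 := caz v hv
      refine ⟨fun h => cza.1 ?_, fun h => cza.1 ?_⟩
      · subst h
        exact ctr _ _ _ _ h2 (csym _ _ _ h1)
      · exact ctr _ _ _ _ h2 (ctr _ _ _ _ (cadj _ _ _ (cR _ _ _ h2) (cR _ _ _ h1) h.symm)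
          (csym _ _ _ h1))
    · intro u hu v hv
      have h1 := hD u hu
      have h2 := cbz v hv
      have h3 := ctr _ _ _ _ (csym _ _ _ h1) cxy
      refine ⟨fun h => czb.1 ?_, fun h => czb.1 ?_⟩
      · subst h
        exact ctr _ _ _ _ h2 h3
      · exact ctr _ _ _ _ h2 (ctr _ _ _ _ (cadj _ _ _ (cR _ _ _ h2) (cR _ _ _ h1) h.symm) h3)

end Pool.Agent.Helper35.FL
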