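import Pool.Agent.Helper64.FL.StG

/-! Full list for MP_866009_co: statement QK1 (three components splitting one pair). -/

set_option autoImplicit false

namespace Pool.Agent.Helper64.FL

open Pool.Agent.Helper64.CT Pool.Agent.Helper64.DT
open Pool.Agent.Helper64.HG (Ovl Model Circ IC HellyCircle ChordModel)

def qk1_f {V : Type} (x p p' t w ea eb ga gb : V) : ℕ → V :=
  fun i => ([x, p, p', t, w, ea, eb, ga, gb] : List V).getD i x

theorem qk1_symm {V : Type} {G : SimpleGraph V} {A B : Set V}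
    (h : ∀ u ∈ A, ∀ v ∈ B, u ≠ v ∧ ¬ G.Adj u v) : ∀ u ∈ B, ∀ v ∈ A, u ≠ v ∧ ¬ G.Adj u v :=
  fun u hu v hv => ⟨fun e => (h v hv u hu).1 e.symm, fun e => (h v hv u hu).2 e.symm⟩

theorem qk1_core (h2 : ST_PTB) {V : Type} {G : SimpleGraph V} {x p p' t w ea eb ga gb : V}
    {K1 K2 K3 : Set V} {L1 L2 L3 : List V} {U2 U3 : List ℕ}
    (F1 : ∀ u ∈ K1, u ≠ x ∧ ¬ G.Adj x u) (F2 : ∀ u ∈ K2, u ≠ x ∧ ¬ G.Adj x u)
    (F3 : ∀ u ∈ K3, u ≠ x ∧ ¬ G.Adj x u)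
    (A12 : ∀ u ∈ K1, ∀ v ∈ K2, u ≠ v ∧ ¬ G.Adj u v)
    (A13 : ∀ u ∈ K1, ∀ v ∈ K3, u ≠ v ∧ ¬ G.Adj u v)
    (A23 : ∀ u ∈ K2, ∀ v ∈ K3, u ≠ v ∧ ¬ G.Adj u v)
    (xp : G.Adj x p) (xp' : G.Adj x p') (npp : p ≠ p')
    (P1 : PtK G K1 t L1 w) (P2 : PtK G K2 ea L2 eb) (P3 : PtK G K3 ga L3 gb)
    (C2 : (U2 = [1] ∧ ∀ u ∈ L2, ¬ G.Adj u p') ∨ (U2 = [2] ∧ ∀ u ∈ L2, ¬ G.Adj u p))
    (C3 : (U3 = [1] ∧ ∀ u ∈ L3, ¬ G.Adj u p') ∨ (U3 = [2] ∧ ∀ u ∈ L3, ¬ G.Adj u p))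
    (p0 : Pre) (hn : p0.n = 9) (hne : p0.ne = [(1, 2)]) (hc : p0.c = []) (hcn : p0.cn = [])
    (hg : p0.g = [(3, 4, [1, 2]), (5, 6, U2), (7, 8, U3)])
    (he : ∀ z ∈ p0.e, G.Adj (qk1_f x p p' t w ea eb ga gb z.1) (qk1_f x p p' t w ea eb ga gb z.2))
    (hd : ∀ z ∈ p0.d, qk1_f x p p' t w ea eb ga gb z.1 ≠ qk1_f x p p' t w ea eb ga gb z.2 ∧
      ¬ G.Adj (qk1_f x p p' t w ea eb ga gb z.1) (qk1_f x p p' t w ea eb ga gb z.2)) :
    PMod G p0 (qk1_f x p p' t w ea eb ga gb) [L1, L2, L3] := by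
  obtain ⟨_, hT, _⟩ := h2 V G
  have T1 := hT _ _ _ P1.pth
  have T2 := hT _ _ _ P2.pth
  have T3 := hT _ _ _ P3.pth
  have A21 := qk1_symm A12
  have A31 := qk1_symm A13
  have A32 := qk1_symm A23
  have hz : p0.g.zip [L1, L2, L3] =
      [((3, 4, [1, 2]), L1), ((5, 6, U2), L2), ((7, 8, U3), L3)] := by
    rw [hg]; rfl
  refine ⟨he, hd, ?_, ?_, ?_, ?_, ?_, ?_, ?_, ?_, ?_⟩
  · intro z hz
    rw [hne] at hz
    simp only [List.mem_cons, List.not_mem_nil, or_false] at hz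
    subst hz
    exact npp
  · intro z hz
    rw [hc] at hz
    exact absurd hz (List.not_mem_nil)
  · intro z hz
    rw [hcn] at hz
    exact absurd hz (List.not_mem_nil)
  · rw [hg]; rfl
  · intro y hy
    rw [hz] at hy
    simp only [List.mem_cons, List.not_mem_nil, or_false] at hy
    rcases hy with rfl | rfl | rfl
    · intro h
      rcases P1.pth with h' | h'
      · exact h'.2
      · exact absurd h h'.1
    · intro h
      rcases P2.pth with h' | h'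
      · exact h'.2
      · exact absurd h h'.1
    · intro h
      rcases P3.pth with h' | h'
      · exact h'.2
      · exact absurd h h'.1
  · intro y hy
    rw [hz] at hy
    simp only [List.mem_cons, List.not_mem_nil, or_false] at hy
    rcases hy with rfl | rfl | rfl
    · intro h
      rcases P1.pth with h' | h'
      · exact absurd h'.1 h
      · exact h'.2
    · intro h
      rcases P2.pth with h' | h'
      · exact absurd h'.1 h
      · exact h'.2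
    · intro h
      rcases P3.pth with h' | h'
      · exact absurd h'.1 h
      · exact h'.2
  · intro y hy i hi
    rw [hz] at hy
    rw [hn] at hi
    simp only [List.mem_cons, List.not_mem_nil, or_false] at hy
    rcases hy with rfl | rfl | rfl
    · intro hm
      have hk := P1.LK _ hm
      interval_cases i
      · exact (F1 _ hk).1 rfl
      · exact (F1 _ hk).2 xp
      · exact (F1 _ hk).2 xp'
      · exact T1.1 hm
      · exact T1.2.1 hm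
      · exact (A12 _ hk _ P2.lK).1 rfl
      · exact (A12 _ hk _ P2.rK).1 rfl
      · exact (A13 _ hk _ P3.lK).1 rfl
      · exact (A13 _ hk _ P3.rK).1 rfl
    · intro hm
      have hk := P2.LK _ hm
      interval_cases i
      · exact (F2 _ hk).1 rfl
      · exact (F2 _ hk).2 xp
      · exact (F2 _ hk).2 xp'
      · exact (A21 _ hk _ P1.lK).1 rfl
      · exact (A21 _ hk _ P1.rK).1 rfl
      · exact T2.1 hm
      · exact T2.2.1 hm
      · exact (A23 _ hk _ P3.lK).1 rfl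
      · exact (A23 _ hk _ P3.rK).1 rfl
    · intro hm
      have hk := P3.LK _ hm
      interval_cases i
      · exact (F3 _ hk).1 rfl
      · exact (F3 _ hk).2 xp
      · exact (F3 _ hk).2 xp'
      · exact (A31 _ hk _ P1.lK).1 rfl
      · exact (A31 _ hk _ P1.rK).1 rfl
      · exact (A32 _ hk _ P2.lK).1 rfl
      · exact (A32 _ hk _ P2.rK).1 rfl
      · exact T3.1 hm
      · exact T3.2.1 hm
  · intro y hy i hi
    rw [hz] at hy
    rw [hn] at hi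
    simp only [List.mem_cons, List.not_mem_nil, or_false] at hy
    rcases hy with rfl | rfl | rfl
    · intro hU ha hb u hu
      have hk := P1.LK _ hu
      interval_cases i
      · exact (F1 _ hk).2
      · exact absurd (by simp) hU
      · exact absurd (by simp) hU
      · exact absurd rfl ha
      · exact absurd rfl hb
      · exact (A21 _ P2.lK _ hk).2
      · exact (A21 _ P2.rK _ hk).2
      · exact (A31 _ P3.lK _ hk).2
      · exact (A31 _ P3.rK _ hk).2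
    · intro hU ha hb u hu
      have hk := P2.LK _ hu
      interval_cases i
      · exact (F2 _ hk).2
      · rcases C2 with ⟨rfl, hC⟩ | ⟨rfl, hC⟩
        · exact absurd (by simp) hU
        · exact fun h => hC u hu h.symm
      · rcases C2 with ⟨rfl, hC⟩ | ⟨rfl, hC⟩
        · exact fun h => hC u hu h.symm
        · exact absurd (by simp) hU
      · exact (A12 _ P1.lK _ hk).2
      · exact (A12 _ P1.rK _ hk).2
      · exact absurd rfl ha
      · exact absurd rfl hb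
      · exact (A32 _ P3.lK _ hk).2
      · exact (A32 _ P3.rK _ hk).2
    · intro hU ha hb u hu
      have hk := P3.LK _ hu
      interval_cases i
      · exact (F3 _ hk).2
      · rcases C3 with ⟨rfl, hC⟩ | ⟨rfl, hC⟩
        · exact absurd (by simp) hU
        · exact fun h => hC u hu h.symm
      · rcases C3 with ⟨rfl, hC⟩ | ⟨rfl, hC⟩
        · exact fun h => hC u hu h.symm
        · exact absurd (by simp) hU
      · exact (A13 _ P1.lK _ hk).2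
      · exact (A13 _ P1.rK _ hk).2
      · exact (A23 _ P2.lK _ hk).2
      · exact (A23 _ P2.rK _ hk).2
      · exact absurd rfl ha
      · exact absurd rfl hb
  · refine List.Pairwise.cons ?_ (List.Pairwise.cons ?_ (List.Pairwise.cons ?_ List.Pairwise.nil))
    · intro B hB
      simp only [List.mem_cons, List.not_mem_nil, or_false] at hB
      rcases hB with rfl | rfl
      · exact fun u hu v hv => A12 _ (P1.LK _ hu) _ (P2.LK _ hv)
      · exact fun u hu v hv => A13 _ (P1.LK _ hu) _ (P3.LK _ hv)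
    · intro B hB
      simp only [List.mem_cons, List.not_mem_nil, or_false] at hB
      subst hB
      exact fun u hu v hv => A23 _ (P2.LK _ hu) _ (P3.LK _ hv)
    · intro B hB
      exact absurd hB (List.not_mem_nil)

/-- the three types of a splitting path -/
def qk1_T {V : Type} (G : SimpleGraph V) (K : Set V) (p p' l r : V) (L : List V) (k : ℕ) : Prop :=
  PtK G K l L r ∧
  ((k = 0 ∧ G.Adj l p ∧ ¬ G.Adj l p' ∧ G.Adj r p' ∧ ¬ G.Adj r p ∧ ∀ u ∈ L, ¬ G.Adj u p') ∨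
   (k = 1 ∧ G.Adj l p ∧ ¬ G.Adj l p' ∧ G.Adj r p' ∧ G.Adj r p ∧ ∀ u ∈ L, ¬ G.Adj u p') ∨
   (k = 2 ∧ G.Adj l p' ∧ ¬ G.Adj l p ∧ G.Adj r p ∧ G.Adj r p' ∧ ∀ u ∈ L, ¬ G.Adj u p))

theorem qk1_spl {V : Type} {G : SimpleGraph V} {K : Set V} {p p' : V} (h : Spl3 G K p p') :
    ∃ l r L k, qk1_T G K p p' l r L k := by
  obtain ⟨l, r, L, h | h⟩ := h
  · obtain ⟨h1, h2, h3⟩ := h
    by_cases hr : G.Adj r p
    · exact ⟨l, r, L, 1, ⟨h3.lK, h3.rK, h3.LK, h3.pth⟩,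
        Or.inr (Or.inl ⟨rfl, h1, h2, h3.rb, hr, h3.Lb⟩)⟩
    · exact ⟨l, r, L, 0, ⟨h3.lK, h3.rK, h3.LK, h3.pth⟩, Or.inl ⟨rfl, h1, h2, h3.rb, hr, h3.Lb⟩⟩
  · obtain ⟨h1, h2, h3, h4⟩ := h
    exact ⟨l, r, L, 2, ⟨h3.lK, h3.rK, h3.LK, h3.pth⟩,
      Or.inr (Or.inr ⟨rfl, h1, h2, h3.rb, h4, h3.Lb⟩)⟩

theorem st_QK1 (h1 : ST_SEP) (h2 : ST_PTB) : ST_QK1 := by
  intro V G hNo x y1 y2 y3 p p' t L1 w n12 n13 n23 xp xp' P1 tp tp' wp wp' S2 S3
  have F : ∀ y, ∀ u ∈ KC G x y, u ≠ x ∧ ¬ G.Adj x u := fun y u hu => hu.2.1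
  have F1 := F y1
  have F2 := F y2
  have F3 := F y3
  have A12 : ∀ u ∈ KC G x y1, ∀ v ∈ KC G x y2, u ≠ v ∧ ¬ G.Adj u v := h1 V G x y1 y2 n12
  have A13 : ∀ u ∈ KC G x y1, ∀ v ∈ KC G x y3, u ≠ v ∧ ¬ G.Adj u v := h1 V G x y1 y3 n13
  have A23 : ∀ u ∈ KC G x y2, ∀ v ∈ KC G x y3, u ≠ v ∧ ¬ G.Adj u v := h1 V G x y2 y3 n23
  have A21 := qk1_symm A12
  have A31 := qk1_symm A13
  have A32 := qk1_symm A23
  have npp : p ≠ p' := by
    rintro rfl
    exact wp' wp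
  obtain ⟨ea, eb, L2, k2, P2, hk2⟩ := qk1_spl S2
  obtain ⟨ga, gb, L3, k3, P3, hk3⟩ := qk1_spl S3
  have X1 := F1 _ P1.lK
  have X2 := F1 _ P1.rK
  have X3 := F2 _ P2.lK
  have X4 := F2 _ P2.rK
  have X5 := F3 _ P3.lK
  have X6 := F3 _ P3.rK
  have N1 := fun (q : V) (hq : G.Adj x q) (u : V) (hu : u ≠ x ∧ ¬ G.Adj x u) =>
    (show u ≠ q from fun e => hu.2 (e ▸ hq))
  have B1 := A21 _ P2.lK _ P1.lK
  have B2 := A21 _ P2.lK _ P1.rK
  have B3 := A21 _ P2.rK _ P1.lK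
  have B4 := A21 _ P2.rK _ P1.rK
  have D1 := A31 _ P3.lK _ P1.lK
  have D2 := A31 _ P3.lK _ P1.rK
  have D3 := A31 _ P3.rK _ P1.lK
  have D4 := A31 _ P3.rK _ P1.rK
  have E1 := A32 _ P3.lK _ P2.lK
  have E2 := A32 _ P3.lK _ P2.rK
  have E3 := A32 _ P3.rK _ P2.lK
  have E4 := A32 _ P3.rK _ P2.rK
  have Y := fun (u : V) (hu : u ≠ x ∧ ¬ G.Adj x u) =>
    (show x ≠ u ∧ ¬ G.Adj x u from ⟨fun e => hu.1 e.symm, hu.2⟩)
  have Y1 := Y _ X1
  have Y2 := Y _ X2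
  have Y3 := Y _ X3
  have Y4 := Y _ X4
  have Y5 := Y _ X5
  have Y6 := Y _ X6
  have Z : ∀ (u : V), u ≠ x ∧ ¬ G.Adj x u → ∀ q, G.Adj x q → ¬ G.Adj u q →
      u ≠ q ∧ ¬ G.Adj u q := fun u hu q hq h => ⟨N1 q hq u hu, h⟩
  have Z0 := Z w X2 p' xp' wp'
  rcases hk2 with ⟨-, a1, a2, a3, a4, a5⟩ | ⟨-, a1, a2, a3, a4, a5⟩ | ⟨-, a1, a2, a3, a4, a5⟩ <;>
    rcases hk3 with ⟨-, b1, b2, b3, b4, b5⟩ | ⟨-, b1, b2, b3, b4, b5⟩ | ⟨-, b1, b2, b3, b4, b5⟩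
  · refine hNo preK100 (by simp [preBs]) (qk1_f x p p' t w ea eb ga gb) [L1, L2, L3]
      (qk1_core h2 F1 F2 F3 A12 A13 A23 xp xp' npp P1 P2 P3 (Or.inl ⟨rfl, a5⟩)
        (Or.inl ⟨rfl, b5⟩) preK100 rfl rfl rfl rfl rfl ?_ ?_)
    · simp [preK100, qk1_f, *]
    · simp [preK100, qk1_f, *]
  · refine hNo preK101 (by simp [preBs]) (qk1_f x p p' t w ea eb ga gb) [L1, L2, L3]
      (qk1_core h2 F1 F2 F3 A12 A13 A23 xp xp' npp P1 P2 P3 (Or.inl ⟨rfl, a5⟩)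
        (Or.inl ⟨rfl, b5⟩) preK101 rfl rfl rfl rfl rfl ?_ ?_)
    · simp [preK101, qk1_f, *]
    · simp [preK101, qk1_f, *]
  · refine hNo preK102 (by simp [preBs]) (qk1_f x p p' t w ea eb ga gb) [L1, L2, L3]
      (qk1_core h2 F1 F2 F3 A12 A13 A23 xp xp' npp P1 P2 P3 (Or.inl ⟨rfl, a5⟩)
        (Or.inr ⟨rfl, b5⟩) preK102 rfl rfl rfl rfl rfl ?_ ?_)
    · simp [preK102, qk1_f, *]
    · simp [preK102, qk1_f, *]
  · refine hNo preK110 (by simp [preBs]) (qk1_f x p p' t w ea eb ga gb) [L1, L2, L3]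
      (qk1_core h2 F1 F2 F3 A12 A13 A23 xp xp' npp P1 P2 P3 (Or.inl ⟨rfl, a5⟩)
        (Or.inl ⟨rfl, b5⟩) preK110 rfl rfl rfl rfl rfl ?_ ?_)
    · simp [preK110, qk1_f, *]
    · simp [preK110, qk1_f, *]
  · refine hNo preK111 (by simp [preBs]) (qk1_f x p p' t w ea eb ga gb) [L1, L2, L3]
      (qk1_core h2 F1 F2 F3 A12 A13 A23 xp xp' npp P1 P2 P3 (Or.inl ⟨rfl, a5⟩)
        (Or.inl ⟨rfl, b5⟩) preK111 rfl rfl rfl rfl rfl ?_ ?_)
    · simp [preK111, qk1_f, *]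
    · simp [preK111, qk1_f, *]
  · refine hNo preK112 (by simp [preBs]) (qk1_f x p p' t w ea eb ga gb) [L1, L2, L3]
      (qk1_core h2 F1 F2 F3 A12 A13 A23 xp xp' npp P1 P2 P3 (Or.inl ⟨rfl, a5⟩)
        (Or.inr ⟨rfl, b5⟩) preK112 rfl rfl rfl rfl rfl ?_ ?_)
    · simp [preK112, qk1_f, *]
    · simp [preK112, qk1_f, *]
  · refine hNo preK120 (by simp [preBs]) (qk1_f x p p' t w ea eb ga gb) [L1, L2, L3]
      (qk1_core h2 F1 F2 F3 A12 A13 A23 xp xp' npp P1 P2 P3 (Or.inr ⟨rfl, a5⟩)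
        (Or.inl ⟨rfl, b5⟩) preK120 rfl rfl rfl rfl rfl ?_ ?_)
    · simp [preK120, qk1_f, *]
    · simp [preK120, qk1_f, *]
  · refine hNo preK121 (by simp [preBs]) (qk1_f x p p' t w ea eb ga gb) [L1, L2, L3]
      (qk1_core h2 F1 F2 F3 A12 A13 A23 xp xp' npp P1 P2 P3 (Or.inr ⟨rfl, a5⟩)
        (Or.inl ⟨rfl, b5⟩) preK121 rfl rfl rfl rfl rfl ?_ ?_)
    · simp [preK121, qk1_f, *]
    · simp [preK121, qk1_f, *]
  · refine hNo preK122 (by simp [preBs]) (qk1_f x p p' t w ea eb ga gb) [L1, L2, L3]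
      (qk1_core h2 F1 F2 F3 A12 A13 A23 xp xp' npp P1 P2 P3 (Or.inr ⟨rfl, a5⟩)
        (Or.inr ⟨rfl, b5⟩) preK122 rfl rfl rfl rfl rfl ?_ ?_)
    · simp [preK122, qk1_f, *]
    · simp [preK122, qk1_f, *]

end Pool.Agent.Helper64.FL
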